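import Mathlib

/-! # Random subsets with independent elements, and their images -/

set_option autoImplicit false

namespace Q198.CF

open Finset

section
variable {I J : Type} [Fintype I] [DecidableEq I] [Fintype J] [DecidableEq J]

/-- the probability that the random set which contains `i` with probability `q i`, independently, is `A` -/
noncomputable def wq (q : I → ℝ) (A : Finset I) : ℝ := (∏ i ∈ A, q i) * ∏ i ∈ Aᶜ, (1 - q i)

/-- the mean of a function of `L` independent random sets -/
noncomputable def iq (q : I → ℝ) : ℕ → (List (Finset I) → ℝ) → ℝ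
  | 0, f => f []
  | L + 1, f => ∑ A : Finset I, wq q A * iq q L fun l => f (A :: l)

theorem iq_succ (q : I → ℝ) (L : ℕ) (f : List (Finset I) → ℝ) :
    iq q (L + 1) f = ∑ A : Finset I, wq q A * iq q L fun l => f (A :: l) := rfl

theorem wq_super (q : I → ℝ) (S : Finset I) :
    ∑ A ∈ univ.filter (fun A => S ⊆ A), wq q A = ∏ i ∈ S, q i := by
  have h := Finset.prod_add q (fun i => if i ∈ S then 0 else 1 - q i) univ
  have h1 : ∏ i, (q i + if i ∈ S then 0 else 1 - q i) = ∏ i ∈ S, q i := by
    rw [← Finset.prod_filter_mul_prod_filter_not univ (fun i => i ∈ S)]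
    rw [Finset.prod_eq_one (s := univ.filter fun i => ¬ i ∈ S), mul_one]
    · rw [Finset.filter_mem_eq_inter, Finset.univ_inter]
      refine Finset.prod_congr rfl fun i hi => ?_
      rw [if_pos hi, add_zero]
    · intro i hi
      rw [if_neg (Finset.mem_filter.1 hi).2]
      ring
  rw [h1] at h
  rw [h, Finset.powerset_univ, Finset.sum_filter]
  refine Finset.sum_congr rfl fun A _ => ?_
  by_cases hS : S ⊆ A
  · rw [if_pos hS]
    unfold wq
    rw [← Finset.compl_eq_univ_sdiff]
    congr 1
    refine Finset.prod_congr rfl fun i hi => ?_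
    rw [if_neg fun hi' => (Finset.mem_compl.1 hi) (hS hi')]
  · rw [if_neg hS]
    obtain ⟨i, hi, hi'⟩ := Finset.not_subset.1 hS
    symm
    refine mul_eq_zero_of_right _ (Finset.prod_eq_zero (i := i) (Finset.mem_sdiff.2 ⟨mem_univ _, hi'⟩) ?_)
    rw [if_pos hi]

theorem wq_sum (q : I → ℝ) : ∑ A : Finset I, wq q A = 1 := by
  have h := wq_super q ∅
  rw [Finset.prod_empty] at h
  rw [← h]
  refine Finset.sum_congr (Finset.ext fun A => ?_) fun _ _ => rfl
  simp

theorem wq_nonneg {q : I → ℝ} (h0 : ∀ i, 0 ≤ q i) (h1 : ∀ i, q i ≤ 1) (A : Finset I) : 0 ≤ wq q A :=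
  mul_nonneg (Finset.prod_nonneg fun i _ => h0 i) (Finset.prod_nonneg fun i _ => by linarith [h1 i])

theorem eq_of_super {w w' : Finset I → ℝ}
    (h : ∀ S, ∑ A ∈ univ.filter (fun A => S ⊆ A), w A = ∑ A ∈ univ.filter (fun A => S ⊆ A), w' A) :
    ∀ S, w S = w' S := by
  have key : ∀ n : ℕ, ∀ S : Finset I, Sᶜ.card = n → w S = w' S := by
    intro n
    induction n using Nat.strong_induction_on with
    | _ n ih =>
      intro S hS
      have h1 := h S
      have hmem : S ∈ univ.filter (fun A => S ⊆ A) := Finset.mem_filter.2 ⟨mem_univ _, Finset.Subset.refl S⟩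
      rw [← Finset.add_sum_erase _ _ hmem, ← Finset.add_sum_erase _ _ hmem] at h1
      have h2 : ∑ A ∈ (univ.filter (fun A => S ⊆ A)).erase S, w A =
          ∑ A ∈ (univ.filter (fun A => S ⊆ A)).erase S, w' A := by
        refine Finset.sum_congr rfl fun A hA => ?_
        obtain ⟨hne, hA'⟩ := Finset.mem_erase.1 hA
        have hSA := (Finset.mem_filter.1 hA').2
        refine ih Aᶜ.card ?_ A rfl
        rw [← hS]
        refine Finset.card_lt_card ?_
        rw [Finset.compl_ssubset_compl]
        exact Finset.ssubset_iff_subset_ne.2 ⟨hSA, hne.symm⟩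
      linarith
  exact fun S => key _ S rfl

/-- the indices all of whose preimages are in `A` -/
def be (π : J → I) (A : Finset J) : Finset I := univ.filter fun i => ∀ j, π j = i → j ∈ A

theorem mem_be {π : J → I} {A : Finset J} {i : I} : i ∈ be π A ↔ ∀ j, π j = i → j ∈ A := by
  unfold be
  simp

/-- the probability that all preimages are in the random set -/
noncomputable def qI (π : J → I) (q : J → ℝ) (i : I) : ℝ := ∏ j ∈ univ.filter (fun j => π j = i), q j

theorem push (π : J → I) (q : J → ℝ) (G : Finset I → ℝ) :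
    ∑ A : Finset J, wq q A * G (be π A) = ∑ B : Finset I, wq (qI π q) B * G B := by
  have h1 : ∀ B : Finset I, ∑ A ∈ univ.filter (fun A : Finset J => be π A = B), wq q A = wq (qI π q) B := by
    refine eq_of_super fun S => ?_
    rw [wq_super]
    have h2 : ∑ B ∈ univ.filter (fun B => S ⊆ B), ∑ A ∈ univ.filter (fun A : Finset J => be π A = B), wq q A =
        ∑ A ∈ univ.filter (fun A : Finset J => univ.filter (fun j => π j ∈ S) ⊆ A), wq q A := by
      rw [← Finset.sum_fiberwise_of_maps_to
        (s := univ.filter (fun A : Finset J => univ.filter (fun j => π j ∈ S) ⊆ A))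
        (t := univ.filter (fun B => S ⊆ B)) (g := be π)]
      · refine Finset.sum_congr rfl fun B hB => ?_
        refine Finset.sum_congr (Finset.ext fun A => ?_) fun _ _ => rfl
        simp only [Finset.mem_filter, Finset.mem_univ, true_and]
        constructor
        · intro h
          refine ⟨fun j hj => ?_, h⟩
          have h3 := (Finset.mem_filter.1 hB).2 (Finset.mem_filter.1 hj).2
          rw [← h] at h3
          exact mem_be.1 h3 j rfl
        · exact fun h => h.2
      · intro A hA
        refine Finset.mem_filter.2 ⟨mem_univ _, fun i hi => mem_be.2 fun j hj => ?_⟩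
        refine (Finset.mem_filter.1 hA).2 (Finset.mem_filter.2 ⟨mem_univ _, ?_⟩)
        rw [hj]
        exact hi
    rw [h2, wq_super]
    unfold qI
    rw [← Finset.prod_fiberwise_of_maps_to (s := univ.filter (fun j => π j ∈ S)) (t := S) (g := π)
      fun j hj => (Finset.mem_filter.1 hj).2]
    refine Finset.prod_congr rfl fun i hi => ?_
    refine Finset.prod_congr (Finset.ext fun j => ?_) fun _ _ => rfl
    simp only [Finset.mem_filter, Finset.mem_univ, true_and]
    constructor
    · exact fun h => h.2
    · rintro rfl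
      exact ⟨hi, rfl⟩
  have h3 : ∑ A : Finset J, wq q A * G (be π A) =
      ∑ B : Finset I, ∑ A ∈ univ.filter (fun A : Finset J => be π A = B), wq q A * G (be π A) :=
    (Finset.sum_fiberwise _ _ _).symm
  rw [h3]
  refine Finset.sum_congr rfl fun B _ => ?_
  rw [← h1 B, Finset.sum_mul]
  refine Finset.sum_congr rfl fun A hA => ?_
  rw [(Finset.mem_filter.1 hA).2]

theorem iq_push (π : J → I) (q : J → ℝ) (L : ℕ) : ∀ f : List (Finset I) → ℝ,
    iq q L (fun l => f (l.map (be π))) = iq (qI π q) L f := by
  induction L with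
  | zero =>
    intro f
    rfl
  | succ L ih =>
    intro f
    rw [iq_succ, iq_succ, ← push π q fun B => iq (qI π q) L fun l => f (B :: l)]
    refine Finset.sum_congr rfl fun A _ => ?_
    congr 1
    exact ih fun l => f (be π A :: l)

theorem iq_abs {q : I → ℝ} (h0 : ∀ i, 0 ≤ q i) (h1 : ∀ i, q i ≤ 1) (L : ℕ) :
    ∀ f : List (Finset I) → ℝ, (∀ l, |f l| ≤ 1) → |iq q L f| ≤ 1 := by
  induction L with
  | zero =>
    intro f hf
    exact hf []
  | succ L ih =>
    intro f hf
    rw [iq_succ]
    refine (Finset.abs_sum_le_sum_abs _ _).trans ?_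
    rw [← wq_sum q]
    refine Finset.sum_le_sum fun A _ => ?_
    rw [abs_mul, abs_of_nonneg (wq_nonneg h0 h1 A)]
    exact mul_le_of_le_one_right (wq_nonneg h0 h1 A) (ih _ fun l => hf _)

end

end Q198.CF
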