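import Mathlib

/-! # Means over tuples of different split primes -/

set_option autoImplicit false

namespace Q198.CF

open Finset Filter Topology

/-- primes congruent to `1` modulo `8` that split in `ℚ(√-7)` -/
def Split (p : ℕ) : Prop := p.Prime ∧ p % 8 = 1 ∧ (p % 7 = 1 ∨ p % 7 = 2 ∨ p % 7 = 4)

/-- the average of `g(p)` over the split primes `p` which do not divide `N` is `c` -/
def Mean (N : ℕ) (g : ℕ → ℝ) (c : ℝ) : Prop :=
  Tendsto (fun X : ℕ => open Classical in
    (∑ p ∈ (range (X + 1)).filter fun p => Split p ∧ ¬ p ∣ N, g p) /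
      (((range (X + 1)).filter fun p => Split p).card : ℝ)) atTop (𝓝 c)

/-- iterated averages -/
def IteratedMean : ℕ → ℕ → (List ℕ → ℝ) → ℝ → Prop
  | 0, _, F, c => c = F []
  | K + 1, N, F, c => ∃ g : ℕ → ℝ,
      (∀ p : ℕ, Split p → ¬ p ∣ N → IteratedMean K (N * p) (fun l => F (p :: l)) (g p)) ∧ Mean N g c

open Classical in
/-- the `K`-tuples of split primes up to `X` -/
noncomputable def tuples (K X : ℕ) : Finset (Fin K → ℕ) :=
  Fintype.piFinset fun _ : Fin K => (range (X + 1)).filter fun p => Split p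

/-- the average over boxes -/
def BoxMean (K N : ℕ) (F : List ℕ → ℝ) (c : ℝ) : Prop :=
  Tendsto (fun X : ℕ => open Classical in
    (∑ p ∈ (tuples K X).filter fun p => Function.Injective p ∧ ∀ i, ¬ p i ∣ N, F (List.ofFn p)) /
      ((tuples K X).card : ℝ)) atTop (𝓝 c)

/-- the tuples of different split primes prime to `N` -/
def AdmL (N : ℕ) (l : List ℕ) : Prop := l.Nodup ∧ ∀ p ∈ l, Split p ∧ ¬ p ∣ N

theorem AdmL.take {N : ℕ} {l : List ℕ} (h : AdmL N l) (j : ℕ) : AdmL N (l.take j) :=
  ⟨h.1.sublist (List.take_sublist j l), fun p hp => h.2 p (List.mem_of_mem_take hp)⟩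

theorem box_congr {K N : ℕ} {F G : List ℕ → ℝ} {c : ℝ}
    (h : ∀ l : List ℕ, l.length = K → AdmL N l → F l = G l) (hF : BoxMean K N F c) : BoxMean K N G c := by
  classical
  refine hF.congr fun X => ?_
  congr 1
  refine Finset.sum_congr rfl fun p hp => ?_
  obtain ⟨h1, h2, h3⟩ := Finset.mem_filter.1 hp
  refine h _ (List.length_ofFn) ⟨List.nodup_ofFn.2 h2, fun q hq => ?_⟩
  obtain ⟨i, rfl⟩ := (List.mem_ofFn' p q).1 hq
  exact ⟨(Finset.mem_filter.1 (Fintype.mem_piFinset.1 h1 i)).2, h3 i⟩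

theorem iter_congr (K : ℕ) : ∀ {N : ℕ} {F G : List ℕ → ℝ} {c : ℝ},
    (∀ l : List ℕ, l.length = K → AdmL N l → F l = G l) → IteratedMean K N F c → IteratedMean K N G c := by
  induction K with
  | zero =>
    intro N F G c h hF
    exact hF.trans (h [] rfl ⟨List.nodup_nil, fun p hp => absurd hp (List.not_mem_nil)⟩)
  | succ K ih =>
    rintro N F G c h ⟨g, h1, h2⟩
    refine ⟨g, fun p hp hpN => ih (fun l hl hA => ?_) (h1 p hp hpN), h2⟩
    refine h (p :: l) (by rw [List.length_cons, hl]) ⟨?_, ?_⟩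
    · refine List.nodup_cons.2 ⟨fun hm => (hA.2 p hm).2 (Dvd.intro_left N rfl), hA.1⟩
    · intro q hq
      rcases List.mem_cons.1 hq with rfl | hq
      · exact ⟨hp, hpN⟩
      · exact ⟨(hA.2 q hq).1, fun hd => (hA.2 q hq).2 (hd.mul_right p)⟩

open Classical in
/-- iterated means are unique -/
theorem unique (K : ℕ) : ∀ (N : ℕ) (F : List ℕ → ℝ) (c c' : ℝ), IteratedMean K N F c →
    IteratedMean K N F c' → c = c' := by
  induction K with
  | zero =>
    intro N F c c' h h'
    exact h.trans h'.symm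
  | succ K ih =>
    rintro N F c c' ⟨g, h1, h2⟩ ⟨g', h1', h2'⟩
    refine tendsto_nhds_unique h2 (h2'.congr fun X => ?_)
    congr 1
    refine Finset.sum_congr rfl fun p hp => ?_
    have hp' := (Finset.mem_filter.1 hp).2
    exact ih _ _ _ _ (h1' p hp'.1 hp'.2) (h1 p hp'.1 hp'.2)

/-- the mean exists in both senses and is `c` -/
def HasMean (K N : ℕ) (F : List ℕ → ℝ) (c : ℝ) : Prop :=
  BoxMean K N F c ∧ ∀ x : ℝ, IteratedMean K N F x ↔ x = c

theorem hasMean_of {K N : ℕ} {F : List ℕ → ℝ} {c : ℝ} (h1 : BoxMean K N F c)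
    (h2 : IteratedMean K N F c) : HasMean K N F c := by
  refine ⟨h1, fun x => ⟨fun h => unique _ _ _ _ _ h h2, ?_⟩⟩
  rintro rfl
  exact h2

theorem HasMean.iter {K N : ℕ} {F : List ℕ → ℝ} {c : ℝ} (h : HasMean K N F c) : IteratedMean K N F c :=
  (h.2 c).2 rfl

theorem HasMean.congr {K N : ℕ} {F G : List ℕ → ℝ} {c : ℝ} (hF : HasMean K N F c)
    (h : ∀ l : List ℕ, l.length = K → AdmL N l → F l = G l) : HasMean K N G c :=
  hasMean_of (box_congr h hF.1) (iter_congr K h hF.iter)

/-- the sets of the good indices after the steps `k + 1, …, K` -/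
noncomputable def outs {I : Type} (g : List ℕ → Finset I) (k : ℕ) (l : List ℕ) : List (Finset I) :=
  ((List.range l.length).drop k).map fun j => g (l.take (j + 1))

theorem outs_congr {I : Type} {g g' : List ℕ → Finset I} {N : ℕ} (h : ∀ l, AdmL N l → g l = g' l)
    (k : ℕ) {l : List ℕ} (hl : AdmL N l) : outs g k l = outs g' k l :=
  List.map_congr_left fun _ _ => h _ (hl.take _)

theorem outs_map {I J : Type} (g : List ℕ → Finset J) (b : Finset J → Finset I) (k : ℕ) (l : List ℕ) :
    (outs g k l).map b = outs (fun l => b (g l)) k l := by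
  unfold outs
  rw [List.map_map]
  rfl

theorem outs_length {I : Type} (g : List ℕ → Finset I) (k : ℕ) (l : List ℕ) :
    (outs g k l).length = l.length - k := by
  unfold outs
  rw [List.length_map, List.length_drop, List.length_range]

end Q198.CF
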