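import Pool.Agent.Z705.Fin
import Pool.Agent.Y687.MQ.Fin
import Pool.Agent.Y687.JQ.Fin
import Pool.Agent.Y687.JQ.Sha
import Pool.Agent.Q1.PT.JBox
import Pool.Agent.Q198.CF.A1
import Pool.Agent.Q198.CF.A2

/-! # Images of the process of the good prime twists -/

set_option autoImplicit false

namespace Q198.CF

open Finset Filter Topology Pool.Agent

/-- coefficients of the twist `E_D : y² = x³ + A D x + B D` of `X_0(14)` -/
def A (D : ℤ) : ℤ := 5805 * D ^ 2

/-- coefficients of the twist `E_D : y² = x³ + A D x + B D` of `X_0(14)` -/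
def B (D : ℤ) : ℤ := -285714 * D ^ 3

/-- the curve `E_D` over `ℚ` -/
def E (D : ℤ) : WeierstrassCurve ℚ :=
  { a₁ := 0, a₂ := 0, a₃ := 0, a₄ := (A D : ℚ), a₆ := (B D : ℚ) }

/-- `E_D(ℚ)` is finite and `Ш(E_D/ℚ)` has no element of order two -/
def RankZeroShaTwo (D : ℤ) : Prop :=
  Finite (E D).toAffine.Point ∧ ∀ x : Pool.Agent.TH841.SH.D.Sha (E D), 2 • x = 0 → x = 0

/-- primes inert in `ℚ(√-7)` and in `ℚ(√2)` -/
def Inert (q : ℕ) : Prop :=
  q.Prime ∧ (q % 8 = 3 ∨ q % 8 = 5) ∧ (q % 7 = 3 ∨ q % 7 = 5 ∨ q % 7 = 6)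

/-- the family of discriminants -/
def Family (D : ℤ) : Prop := Squarefree D ∧ D % 4 = 1 ∧ (D % 7 = 1 ∨ D % 7 = 2 ∨ D % 7 = 4) ∧
  ∀ p : ℕ, p.Prime → (p : ℤ) ∣ D → p ≠ 3 ∧ (Split p ∨ Inert p)

open Classical in
/-- the set of the indices `i` for which the twist by `D_i ∏ l` has rank zero and `Ш[2] = 0` -/
noncomputable def good {m : ℕ} (D : Fin m → ℤ) (l : List ℕ) : Finset (Fin m) :=
  univ.filter fun i => RankZeroShaTwo (D i * (l.prod : ℕ))

/-- the product `κ` -/
noncomputable def κ : ℝ := ∏' i : ℕ, (1 - (1 / 2 : ℝ) ^ (2 * i + 1))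

theorem rank_iff {D : ℤ} (h : Y687.MQ.AdmD D) : RankZeroShaTwo D ↔ (Y687.MQ.matD D).det ≠ 0 := by
  rw [← Y687.JQ.rzs_iff h]
  unfold RankZeroShaTwo Y687.JQ.RZS
  refine and_congr Iff.rfl (forall_congr' fun x => ?_)
  rw [two_nsmul]
  rfl

open Classical in
theorem pth_eq {m : ℕ} (l : List ℕ) : ∀ D : Fin m → ℤ,
    Pool.Agent.Q1.PT.pth RankZeroShaTwo D l =
      (List.range (l.length + 1)).map fun j => good D (l.take j) := by
  induction l with
  | nil =>
    intro D
    have h : Pool.Agent.Q1.PT.gset RankZeroShaTwo D = good D [] := by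
      unfold Pool.Agent.Q1.PT.gset good
      refine Finset.filter_congr fun i _ => ?_
      rw [List.prod_nil, Nat.cast_one, mul_one]
    show [Pool.Agent.Q1.PT.gset RankZeroShaTwo D] = _
    rw [h]
    rfl
  | cons p l ih =>
    intro D
    have h2 : List.range ((p :: l).length + 1) = 0 :: (List.range (l.length + 1)).map Nat.succ :=
      List.range_succ_eq_map
    rw [Pool.Agent.Q1.PT.pth_cons, ih, h2, List.map_cons, List.map_map]
    congr 1
    · unfold Pool.Agent.Q1.PT.gset good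
      refine Finset.filter_congr fun i _ => ?_
      rw [List.take_zero, List.prod_nil, Nat.cast_one, mul_one]
    · refine List.map_congr_left fun j _ => ?_
      show good (fun i => D i * (p : ℤ)) (l.take j) = good D ((p :: l).take (j + 1))
      unfold good
      refine Finset.filter_congr fun i _ => ?_
      rw [List.take_succ_cons, List.prod_cons]
      push_cast
      rw [mul_assoc]

theorem drop_pth {m : ℕ} (D : Fin m → ℤ) (k : ℕ) (l : List ℕ) :
    (Pool.Agent.Q1.PT.pth RankZeroShaTwo D l).drop (k + 1) = outs (good D) k l := by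
  rw [pth_eq, List.range_succ_eq_map, List.map_cons, List.drop_succ_cons, List.map_map]
  unfold outs
  rw [List.map_drop]
  rfl

theorem iq_eq (m L : ℕ) : ∀ F : List (Finset (Fin m)) → ℝ,
    iq (fun _ : Fin m => κ) L F = Pool.Agent.Q1.PT.iE L F := by
  induction L with
  | zero =>
    intro F
    rfl
  | succ L ih =>
    intro F
    rw [Pool.Agent.Q1.PT.iE_succ, iq_succ]
    refine Finset.sum_congr rfl fun A _ => ?_
    rw [ih]
    congr 1
    unfold Pool.Agent.Q1.PT.wt wq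
    rw [Finset.prod_const, Finset.prod_const, Finset.card_compl]
    rfl

open Classical in
/-- **the process of the good sets, with any modulus** -/
theorem core (m : ℕ) : ∃ C ρ : ℝ, 0 < C ∧ 0 < ρ ∧ ρ < 1 ∧
    ∀ D : Fin m → ℤ, (∀ i, Family (D i)) → Function.Injective D → ∀ N : ℕ, N ≠ 0 →
      (∀ r ∈ N.primeFactors, r ≠ 2 ∧ r ≠ 7) → (∀ i, (D i).natAbs.primeFactors ⊆ N.primeFactors) →
      ∀ (k L : ℕ) (F : List (Finset (Fin m)) → ℝ), (∀ l, |F l| ≤ 1) → ∃ c : ℝ,
        HasMean (k + L) N (fun l => F (outs (good D) k l)) c ∧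
        |c - iq (fun _ : Fin m => κ) L F| ≤ C * 2 ^ N.primeFactors.card * ρ ^ k := by
  obtain ⟨C, ρ, hC, h0, h1, hmain⟩ := Pool.Agent.Q1.PT.coin (Fin m)
  refine ⟨C, ρ, hC, h0, h1, fun D hD hinj N hN hR' hsub k L F hF => ?_⟩
  have hR : ∀ r ∈ N.primeFactors, r.Prime ∧ r ≠ 2 ∧ r ≠ 7 := fun r hr =>
    ⟨Nat.prime_of_mem_primeFactors hr, hR' r hr⟩
  have hG : ∀ M : ℤ, Pool.Agent.Y687.MQ.AdmD M →
      (RankZeroShaTwo M ↔ (Pool.Agent.Y687.MQ.matD M).det ≠ 0) := fun M hM => rank_iff hM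
  have he : (fun l : List ℕ => F (outs (good D) k l)) =
      fun l : List ℕ => F ((Pool.Agent.Q1.PT.pth RankZeroShaTwo D l).drop (k + 1)) := by
    funext l
    rw [drop_pth]
  rw [he]
  refine ⟨Pool.Agent.Q1.PT.jp (k + L) (Pool.Agent.Q1.PT.iR D hsub)
    (Pool.Agent.Q1.PT.tR N.primeFactors D)
    (fun i => Pool.Agent.Y687.MQ.matD (D i)) fun l => F (l.drop (k + 1)), hasMean_of ?_ ?_, ?_⟩
  · have h := Pool.Agent.Q1.PT.box_jp hG (k + L) N.primeFactors hR D hsub hD
      fun l => F (l.drop (k + 1))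
    unfold BoxMean
    refine h.congr fun X => ?_
    have e1 : (tuples (k + L) X) = Q155.KT.tup (k + L) X := by
      unfold tuples Q155.KT.tup Q155.KT.spl
      rfl
    rw [e1]
    congr 1
    refine Finset.sum_congr (Finset.ext fun p => ?_) fun _ _ => rfl
    rw [Finset.mem_filter, Finset.mem_filter]
    refine and_congr_right fun hp => and_congr_right fun _ => forall_congr' fun i => ?_
    have hpi : (p i).Prime := ((Q155.KT.mem_tup.1 hp) i).2.1
    rw [Nat.mem_primeFactors]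
    exact ⟨fun h h' => h ⟨hpi, h', hN⟩, fun h h' => h h'.2.1⟩
  · exact Pool.Agent.Q1.PT.iter_jp (m := m) IteratedMean (fun N F c h => h)
      (fun k N F c g h1 h2 => ⟨g, h1, h2⟩) RankZeroShaTwo hG (k + L)
      N N.primeFactors hN rfl hR D hsub hD
      fun l => F (l.drop (k + 1))
  · have h := hmain k L (Pool.Agent.Q1.PT.iR_inj D hsub) (Pool.Agent.Q1.PT.tR_inj hsub hD hinj)
      (fun i => Pool.Agent.Q1.PT.matD_symm (hD i)) F hF
    rw [Fintype.card_coe] at h
    rw [iq_eq]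
    exact h

open Classical in
/-- **images**: `g l` is the set of the indices `i` such that all `D j ∏ l` with `π j = i` are good -/
theorem main (m : ℕ) : ∃ C ρ : ℝ, 0 < C ∧ 0 < ρ ∧ ρ < 1 ∧
    ∀ (I J : Type) [Fintype I] [DecidableEq I] [Fintype J], Fintype.card J = m → ∀ (π : J → I) (D : J → ℤ),
      (∀ j, Family (D j)) → Function.Injective D → ∀ N : ℕ, N ≠ 0 →
      (∀ r ∈ N.primeFactors, r ≠ 2 ∧ r ≠ 7) → (∀ j, (D j).natAbs.primeFactors ⊆ N.primeFactors) →
      ∀ g : List ℕ → Finset I, (∀ l, AdmL N l → ∀ i, i ∈ g l ↔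
        ∀ j, π j = i → RankZeroShaTwo (D j * (l.prod : ℕ))) →
      ∀ q : I → ℝ, (∀ i, q i = κ ^ Nat.card {j : J // π j = i}) →
      ∀ (k L : ℕ) (F : List (Finset I) → ℝ), (∀ l, |F l| ≤ 1) → ∃ c : ℝ,
        HasMean (k + L) N (fun l => F (outs g k l)) c ∧
        |c - iq q L F| ≤ C * 2 ^ N.primeFactors.card * ρ ^ k := by
  obtain ⟨C, ρ, hC, h0, h1, h⟩ := core m
  refine ⟨C, ρ, hC, h0, h1, ?_⟩
  intro I J _ _ _ hJ π D hD hinj N hN hR hsub g hg q hq k L F hF
  have e : J ≃ Fin m := Fintype.equivFinOfCardEq hJ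
  obtain ⟨c, hc1, hc2⟩ := h (fun a => D (e.symm a)) (fun a => hD _)
    (hinj.comp e.symm.injective) N hN hR (fun a => hsub _) k L
    (fun l => F (l.map (be fun a => π (e.symm a)))) (fun l => hF _)
  refine ⟨c, hc1.congr fun l _ hl => ?_, ?_⟩
  · show F ((outs (good fun a => D (e.symm a)) k l).map _) = F (outs g k l)
    rw [outs_map]
    congr 1
    refine outs_congr (fun l' hl' => ?_) k hl
    ext i
    rw [mem_be, hg l' hl']
    constructor
    · intro h1 j hj
      have h2 := h1 (e j) (by rw [e.symm_apply_apply]; exact hj)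
      have h3 : RankZeroShaTwo (D (e.symm (e j)) * (l'.prod : ℕ)) := (Finset.mem_filter.1 h2).2
      rw [e.symm_apply_apply] at h3
      exact h3
    · intro h1 a ha
      exact Finset.mem_filter.2 ⟨mem_univ _, h1 _ ha⟩
  · rw [iq_push] at hc2
    have h3 : qI (fun a => π (e.symm a)) (fun _ : Fin m => κ) = q := by
      funext i
      unfold qI
      rw [hq i, Nat.card_eq_fintype_card, Fintype.card_subtype, Finset.prod_const]
      congr 1
      refine Finset.card_bij (fun a _ => e.symm a) (fun a ha => ?_) (fun a _ b _ h => e.symm.injective h)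
        fun j hj => ⟨e j, ?_, e.symm_apply_apply j⟩
      · exact Finset.mem_filter.2 ⟨mem_univ _, (Finset.mem_filter.1 ha).2⟩
      · refine Finset.mem_filter.2 ⟨mem_univ _, ?_⟩
        show π (e.symm (e j)) = i
        rw [e.symm_apply_apply]
        exact (Finset.mem_filter.1 hj).2
    rw [h3] at hc2
    exact hc2

/-! ### discriminants -/

theorem family_mul_prime {D : ℤ} (hD : Family D) {p : ℕ} (hp : Split p) (h : ¬ (p : ℤ) ∣ D) :
    Family (D * (p : ℤ)) := by
  refine Q283.TW.admD_mul hD hp fun h' => h ?_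
  exact Int.natCast_dvd.2 (Nat.dvd_of_mem_primeFactors h')

theorem family_list {N : ℕ} (l : List ℕ) : ∀ {D : ℤ}, Family D → D.natAbs.primeFactors ⊆ N.primeFactors →
    N ≠ 0 → AdmL N l → Family (D * (l.prod : ℕ)) := by
  induction l with
  | nil =>
    intro D hD _ _ _
    rw [List.prod_nil, Nat.cast_one, mul_one]
    exact hD
  | cons p l ih =>
    intro D hD hs hN hl
    have hp := hl.2 p (List.mem_cons_self ..)
    have h1 : AdmL N l := ⟨(List.nodup_cons.1 hl.1).2, fun q hq => hl.2 q (List.mem_cons_of_mem _ hq)⟩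
    have h2 := ih hD hs hN h1
    rw [List.prod_cons, Nat.cast_mul, mul_comm (p : ℤ), ← mul_assoc]
    refine family_mul_prime h2 hp.1 fun h3 => ?_
    have hpp : Prime (p : ℤ) := Nat.prime_iff_prime_int.1 hp.1.1
    rcases hpp.dvd_or_dvd h3 with h4 | h4
    · refine hp.2 (Nat.dvd_of_mem_primeFactors (hs ?_))
      exact Nat.mem_primeFactors.2 ⟨hp.1.1, Int.natCast_dvd.1 h4, Int.natAbs_ne_zero.2 hD.1.ne_zero⟩
    · have h5 : p ∣ l.prod := by exact_mod_cast h4
      obtain ⟨q, hq, hpq⟩ := (Nat.Prime.prime hp.1.1).dvd_prod_iff.1 h5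
      have h6 : p = q := (Nat.prime_dvd_prime_iff_eq hp.1.1 (hl.2 q (List.mem_cons_of_mem _ hq)).1.1).1 hpq
      rw [h6] at hl
      exact (List.nodup_cons.1 hl.1).1 hq

end Q198.CF
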