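import Mathlib

/-! # The coin model on a probability space -/

set_option autoImplicit false

namespace Q198.CF

open MeasureTheory ProbabilityTheory Finset Filter Topology

/-! ### one coin (after `Pool.Agent.Q68.RK.Est`) -/

/-- centred letter -/
noncomputable def ctr (p : ℝ) (b : Bool) : ℝ := (if b then (1 : ℝ) else 0) - p

/-- centred letters as random variables -/
noncomputable def Xc (p : ℝ) (k : ℕ) (x : ℕ → Bool) : ℝ := ctr p (x k)

/-- the number of successes before `n` -/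
def cn (n : ℕ) (x : ℕ → Bool) : ℕ := ((range n).filter fun k => x k = true).card

section
variable (μ : Measure Bool) [IsProbabilityMeasure μ]

/-- the product measure -/
noncomputable abbrev PI : Measure (ℕ → Bool) := Measure.infinitePi (fun _ : ℕ => μ)

lemma measurable_ctr (p : ℝ) : Measurable (ctr p) := measurable_of_finite _

lemma measurable_Xc (p : ℝ) (k : ℕ) : Measurable (Xc p k) :=
  (measurable_ctr p).comp (measurable_pi_apply k)

lemma Xc_indep (p : ℝ) : iIndepFun (Xc p) (PI μ) :=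
  iIndepFun_infinitePi (X := fun _ => ctr p) (fun _ => measurable_ctr p)

lemma map_Xc (p : ℝ) (k : ℕ) : (PI μ).map (Xc p k) = μ.map (ctr p) := by
  have h : (PI μ).map (fun x : ℕ → Bool => x k) = μ := Measure.infinitePi_map_eval _ k
  conv_rhs => rw [← h]
  rw [Measure.map_map (measurable_ctr p) (measurable_pi_apply k)]
  rfl

lemma Xc_ident (p : ℝ) (k : ℕ) : IdentDistrib (Xc p k) (Xc p 0) (PI μ) (PI μ) :=
  ⟨(measurable_Xc p k).aemeasurable, (measurable_Xc p 0).aemeasurable, by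
    rw [map_Xc, map_Xc]⟩

lemma Xc_bound (p : ℝ) (k : ℕ) (x : ℕ → Bool) : |Xc p k x| ≤ 1 + |p| := by
  unfold Xc ctr
  refine (abs_sub _ _).trans ?_
  gcongr
  split_ifs <;> simp

lemma Xc_memLp (p : ℝ) (k : ℕ) : MemLp (Xc p k) 2 (PI μ) :=
  MemLp.of_bound (measurable_Xc p k).aestronglyMeasurable (1 + |p|)
    (ae_of_all _ fun x => Xc_bound p k x)

lemma real_false : μ.real {false} = 1 - μ.real {true} := by
  have h : ({false} : Set Bool) = {true}ᶜ := by ext b; cases b <;> simp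
  rw [h, probReal_compl_eq_one_sub (measurableSet_singleton _)]

lemma integral_ctr_comp (f : ℝ → ℝ) (p : ℝ) (hp : p = μ.real {true}) :
    ∫ b, f (ctr p b) ∂μ = p * f (1 - p) + (1 - p) * f (-p) := by
  rw [integral_fintype (Integrable.of_finite)]
  rw [Fintype.sum_bool, real_false μ, ← hp]
  simp [ctr]

lemma integral_Xc_comp {f : ℝ → ℝ} (hf : Measurable f) (p : ℝ) (hp : p = μ.real {true}) (k : ℕ) :
    ∫ x, f (Xc p k x) ∂(PI μ) = p * f (1 - p) + (1 - p) * f (-p) := by
  rw [← integral_ctr_comp μ f p hp]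
  rw [← integral_map (measurable_Xc p k).aemeasurable hf.aestronglyMeasurable, map_Xc,
    integral_map (measurable_ctr p).aemeasurable hf.aestronglyMeasurable]

lemma integral_Xc (p : ℝ) (hp : p = μ.real {true}) (k : ℕ) : ∫ x, Xc p k x ∂(PI μ) = 0 := by
  have := integral_Xc_comp μ measurable_id p hp k
  simp only [id] at this
  rw [this]
  ring

lemma variance_Xc (p : ℝ) (hp : p = μ.real {true}) (k : ℕ) :
    Var[Xc p k; PI μ] = p * (1 - p) := by
  rw [variance_eq_sub (Xc_memLp μ p k), integral_Xc μ p hp k]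
  have := integral_Xc_comp μ (f := fun y => y ^ 2) (by fun_prop) p hp k
  simp only [Pi.pow_apply]
  rw [this]
  ring

omit [IsProbabilityMeasure μ] in
lemma sum_Xc (p : ℝ) (n : ℕ) (x : ℕ → Bool) : ∑ k ∈ range n, Xc p k x = cn n x - n * p := by
  unfold Xc ctr cn
  rw [Finset.sum_sub_distrib, Finset.sum_const, card_range, nsmul_eq_mul, Finset.sum_boole]

lemma measurable_cn (n : ℕ) : Measurable (cn n) := by
  have h : cn n = fun x => ∑ k ∈ range n, (fun b : Bool => if b = true then 1 else 0) (x k) := by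
    funext x
    unfold cn
    rw [Finset.card_filter]
  rw [h]
  have hb : Measurable (fun b : Bool => if b = true then (1 : ℕ) else 0) := measurable_of_finite _
  exact Finset.measurable_fun_sum _ fun k _ => hb.comp (measurable_pi_apply k)

theorem no_atom (x : ℝ) : (gaussianReal 0 1) {x} = 0 := by
  have : NullSingletonClass (gaussianReal 0 1) :=
    nullSingletonClass_gaussianReal (μ := 0) (v := 1) one_ne_zero
  exact measure_singleton x

/-- the normal distribution function -/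
noncomputable def Phi (x : ℝ) : ℝ := (gaussianReal 0 1).real (Set.Iic x)

/-- the standardized letters -/
noncomputable def Xs (p : ℝ) (k : ℕ) (x : ℕ → Bool) : ℝ := (√(p * (1 - p)))⁻¹ * Xc p k x

lemma clt_cn (p : ℝ) (hp : p = μ.real {true}) (hp0 : 0 < p) (hp1 : p < 1) (t : ℝ) :
    Tendsto (fun n : ℕ => (PI μ).real {x | (cn n x : ℝ) ≤ n * p + t * (√(p * (1 - p)) * √(n : ℝ))}) atTop
      (𝓝 (Phi t)) := by
  set σ : ℝ := √(p * (1 - p)) with hσ
  have hv : 0 < p * (1 - p) := mul_pos hp0 (by linarith)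
  have hσ0 : 0 < σ := Real.sqrt_pos.2 hv
  have hσ2 : σ ^ 2 = p * (1 - p) := Real.sq_sqrt hv.le
  have hm : ∀ k, Measurable (Xs p k) := fun k => (measurable_Xc p k).const_mul _
  have h1 := tendstoInDistribution_inv_sqrt_mul_sum (X := Xs p) (P := PI μ)
    (Y := (id : ℝ → ℝ)) (P' := gaussianReal 0 1) HasLaw.id (by
      unfold Xs
      rw [integral_const_mul, integral_Xc μ p hp 0, mul_zero]) (by
      have h2 := integral_Xc_comp μ (f := fun y => (σ⁻¹ * y) ^ 2) (by fun_prop) p hp 0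
      have h3 : (fun x : ℕ → Bool => (fun y => (σ⁻¹ * y) ^ 2) (Xc p 0 x)) = (Xs p 0) ^ 2 := rfl
      show ∫ x, ((Xs p 0) ^ 2) x ∂(PI μ) = 1
      rw [← h3]
      simp only []
      rw [h2]
      have h4 : σ⁻¹ ^ 2 * (p * (1 - p)) = 1 := by
        rw [← hσ2, inv_pow, inv_mul_cancel₀ (pow_ne_zero 2 hσ0.ne')]
      calc p * (σ⁻¹ * (1 - p)) ^ 2 + (1 - p) * (σ⁻¹ * -p) ^ 2 = σ⁻¹ ^ 2 * (p * (1 - p)) := by ring
        _ = 1 := h4)
    ((Xc_indep μ p).comp (fun _ y => σ⁻¹ * y) fun _ => by fun_prop)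
    (fun k => (Xc_ident μ p k).comp (u := fun y => σ⁻¹ * y) (by fun_prop))
  have hmS : ∀ n : ℕ, Measurable fun x : ℕ → Bool => (√(n : ℝ))⁻¹ * ∑ k ∈ range n, Xs p k x := fun n =>
    (Finset.measurable_fun_sum _ fun k _ => hm k).const_mul _
  have h2 : Tendsto (fun n : ℕ => ((PI μ).map fun x : ℕ → Bool => (√(n : ℝ))⁻¹ * ∑ k ∈ range n, Xs p k x)
      (Set.Iic t)) atTop (𝓝 (((gaussianReal 0 1).map id) (Set.Iic t))) :=
    ProbabilityMeasure.tendsto_measure_of_null_frontier_of_tendsto' h1.tendsto (E := Set.Iic t)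
      (by
        change ((gaussianReal 0 1).map id) (frontier (Set.Iic t)) = 0
        rw [Measure.map_id, frontier_Iic]
        exact no_atom t)
  rw [Measure.map_id] at h2
  have h3 := (ENNReal.tendsto_toReal (measure_ne_top (gaussianReal 0 1) (Set.Iic t))).comp h2
  refine h3.congr' ?_
  filter_upwards [eventually_gt_atTop 0] with n hn
  have hn' : (0 : ℝ) < √(n : ℝ) := Real.sqrt_pos.2 (by exact_mod_cast hn)
  simp only [Function.comp_apply]
  rw [Measure.map_apply (hmS n) measurableSet_Iic]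
  show (PI μ).real _ = (PI μ).real _
  congr 1
  ext x
  show (√(n : ℝ))⁻¹ * ∑ k ∈ range n, Xs p k x ≤ t ↔ (cn n x : ℝ) ≤ n * p + t * (σ * √(n : ℝ))
  have h4 : ∑ k ∈ range n, Xs p k x = σ⁻¹ * (cn n x - n * p) := by
    unfold Xs
    rw [← Finset.mul_sum, sum_Xc]
  rw [h4]
  have h5 : (√(n : ℝ))⁻¹ * (σ⁻¹ * ((cn n x : ℝ) - n * p)) = ((cn n x : ℝ) - n * p) / (σ * √(n : ℝ)) := by
    field_simp
  rw [h5, div_le_iff₀ (mul_pos hσ0 hn')]
  constructor <;> intro h <;> linarith

/-- Hoeffding's inequality, one side -/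
lemma hoeff (p : ℝ) (hp : p = μ.real {true}) (n : ℕ) (hn : 0 < n) {e : ℝ} (he : 0 ≤ e) :
    (PI μ).real {x | e * n ≤ ∑ k ∈ range n, Xc p k x} ≤ Real.exp (-2 * e ^ 2 * n) := by
  have h1 : ∀ i < n, HasSubgaussianMGF (Xc p i) ((‖(1 - p) - (-p)‖₊ / 2) ^ 2) (PI μ) := fun i _ =>
    hasSubgaussianMGF_of_mem_Icc_of_integral_eq_zero (measurable_Xc p i).aemeasurable
      (ae_of_all _ fun x => by
        unfold Xc ctr
        split_ifs
        · exact ⟨by linarith, le_refl _⟩
        · exact ⟨by linarith, by linarith⟩) (integral_Xc μ p hp i)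
  have h2 := HasSubgaussianMGF.measure_sum_range_ge_le_of_iIndepFun (Xc_indep μ p) h1
    (ε := e * n) (by positivity)
  refine h2.trans (le_of_eq ?_)
  congr 1
  have h3 : (((‖(1 - p) - (-p)‖₊ / 2) ^ 2 : NNReal) : ℝ) = 1 / 4 := by
    have : (1 - p) - (-p) = 1 := by ring
    rw [this]
    push_cast
    norm_num
  rw [h3]
  have hn' : (n : ℝ) ≠ 0 := by exact_mod_cast hn.ne'
  field_simp
  ring

lemma hoeff' (p : ℝ) (hp : p = μ.real {true}) (n : ℕ) (hn : 0 < n) {e : ℝ} (he : 0 ≤ e) :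
    (PI μ).real {x | e * n ≤ -∑ k ∈ range n, Xc p k x} ≤ Real.exp (-2 * e ^ 2 * n) := by
  have h1 : ∀ i < n, HasSubgaussianMGF (fun x => -Xc p i x) ((‖p - (-(1 - p))‖₊ / 2) ^ 2) (PI μ) := fun i _ =>
    hasSubgaussianMGF_of_mem_Icc_of_integral_eq_zero (measurable_Xc p i).neg.aemeasurable
      (ae_of_all _ fun x => by
        unfold Xc ctr
        split_ifs
        · exact ⟨by linarith, by linarith⟩
        · exact ⟨by linarith, by linarith⟩) (by rw [integral_neg, integral_Xc μ p hp i, neg_zero])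
  have h2 := HasSubgaussianMGF.measure_sum_range_ge_le_of_iIndepFun
    ((Xc_indep μ p).comp (fun _ y => -y) fun _ => measurable_neg) h1
    (ε := e * n) (by positivity)
  have h4 : {x : ℕ → Bool | e * n ≤ -∑ k ∈ range n, Xc p k x} =
      {x | e * n ≤ ∑ k ∈ range n, ((fun y : ℝ => -y) ∘ Xc p k) x} := by
    ext x
    simp only [Set.mem_ofPred_eq, Function.comp_apply, Finset.sum_neg_distrib]
  rw [h4]
  refine h2.trans (le_of_eq ?_)
  congr 1
  have h3 : (((‖p - (-(1 - p))‖₊ / 2) ^ 2 : NNReal) : ℝ) = 1 / 4 := by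
    have : p - (-(1 - p)) = 1 := by ring
    rw [this]
    push_cast
    norm_num
  rw [h3]
  have hn' : (n : ℝ) ≠ 0 := by exact_mod_cast hn.ne'
  field_simp
  ring

lemma hoeff_cn (p : ℝ) (hp : p = μ.real {true}) (n : ℕ) (hn : 0 < n) {e : ℝ} (he : 0 ≤ e) :
    (PI μ).real {x | e * n ≤ |(cn n x : ℝ) - n * p|} ≤ 2 * Real.exp (-2 * e ^ 2 * n) := by
  have h1 : {x : ℕ → Bool | e * n ≤ |(cn n x : ℝ) - n * p|} ⊆
      {x | e * n ≤ ∑ k ∈ range n, Xc p k x} ∪ {x | e * n ≤ -∑ k ∈ range n, Xc p k x} := by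
    intro x hx
    have hx' : e * n ≤ |(cn n x : ℝ) - n * p| := hx
    rcases le_abs.1 hx' with h | h
    · left
      show e * n ≤ ∑ k ∈ range n, Xc p k x
      rw [sum_Xc]
      exact h
    · right
      show e * n ≤ -∑ k ∈ range n, Xc p k x
      rw [sum_Xc]
      exact h
  refine (measureReal_mono h1 (measure_ne_top _ _)).trans ?_
  refine (measureReal_union_le _ _).trans ?_
  have := hoeff μ p hp n hn he
  have := hoeff' μ p hp n hn he
  linarith

end

end Q198.CF
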