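import Pool.Agent.Q198.CF.A1
import Pool.Agent.Q198.CF.B1

/-! # Independent random sets as families of independent coins -/

set_option autoImplicit false

namespace Q198.CF

open MeasureTheory ProbabilityTheory Finset Filter Topology

section
variable {I : Type} [Fintype I] [DecidableEq I]

/-- the number of the sets in the list which contain `i` -/
def cntL (i : I) (l : List (Finset I)) : ℕ := l.countP fun A => decide (i ∈ A)

theorem iq_sum (q : I → ℝ) (L : ℕ) : ∀ F : List (Finset I) → ℝ,
    iq q L F = ∑ A : Fin L → Finset I, (∏ j, wq q (A j)) * F (List.ofFn A) := by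
  induction L with
  | zero =>
    intro F
    rw [Fintype.sum_unique, List.ofFn_zero, Finset.univ_eq_empty, Finset.prod_empty, one_mul]
    rfl
  | succ L ih =>
    intro F
    rw [iq_succ, ← (Fin.consEquiv fun _ : Fin (L + 1) => Finset I).sum_comp, Fintype.sum_prod_type]
    refine Finset.sum_congr rfl fun A _ => ?_
    rw [ih, Finset.mul_sum]
    refine Finset.sum_congr rfl fun B _ => ?_
    rw [Fin.prod_univ_succ, List.ofFn_succ]
    simp only [Fin.consEquiv, Equiv.coe_fn_mk, Fin.cons_zero, Fin.cons_succ]
    ring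

omit [Fintype I] in
theorem cntL_ofFn (i : I) (L : ℕ) : ∀ A : Fin L → Finset I,
    cntL i (List.ofFn A) = (univ.filter fun j => i ∈ A j).card := by
  induction L with
  | zero =>
    intro A
    rw [List.ofFn_zero]
    simp [cntL]
  | succ L ih =>
    intro A
    have h := ih fun j => A j.succ
    rw [List.ofFn_succ, Fin.card_filter_univ_succ, ← h]
    unfold cntL
    rw [List.countP_cons]
    by_cases hi : i ∈ A 0 <;> simp [hi]

/-- the sets of the coins -/
def So (L : ℕ) (ω : I → ℕ → Bool) (j : Fin L) : Finset I := univ.filter fun i => ω i j = true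

theorem So_eq_iff {L : ℕ} {ω : I → ℕ → Bool} {A : Fin L → Finset I} :
    So L ω = A ↔ ∀ i, ∀ j : Fin L, ω i j = decide (i ∈ A j) := by
  constructor
  · rintro rfl i j
    unfold So
    cases h : ω i j <;> simp [h]
  · intro h
    funext j
    ext i
    unfold So
    rw [Finset.mem_filter, h i j]
    simp

theorem cntL_So (L : ℕ) (ω : I → ℕ → Bool) (i : I) : cntL i (List.ofFn (So L ω)) = cn L (ω i) := by
  rw [cntL_ofFn]
  unfold cn
  rw [Finset.card_filter, Finset.card_filter, Finset.sum_range]
  refine Finset.sum_congr rfl fun j _ => ?_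
  unfold So
  simp

variable (μ : Measure Bool) [IsProbabilityMeasure μ]

/-- the measure on the families of coins -/
noncomputable abbrev PP (I : Type) [Fintype I] : Measure (I → ℕ → Bool) := Measure.pi fun _ : I => PI μ

theorem meas_cyl (L : ℕ) (b : Fin L → Bool) : MeasurableSet {x : ℕ → Bool | ∀ j : Fin L, x j = b j} := by
  have h : {x : ℕ → Bool | ∀ j : Fin L, x j = b j} = ⋂ j : Fin L, (fun x : ℕ → Bool => x j) ⁻¹' {b j} := by
    ext x
    simp
  rw [h]
  exact MeasurableSet.iInter fun j => measurable_pi_apply _ (measurableSet_singleton _)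

theorem prob_cyl (L : ℕ) (b : Fin L → Bool) :
    (PI μ).real {x : ℕ → Bool | ∀ j : Fin L, x j = b j} = ∏ j, μ.real {b j} := by
  have h : {x : ℕ → Bool | ∀ j : Fin L, x j = b j} =
      Set.pi ((range L : Finset ℕ) : Set ℕ) fun k => if h : k < L then {b ⟨k, h⟩} else Set.univ := by
    ext x
    constructor
    · intro hx k hk
      have hk' : k < L := Finset.mem_range.1 hk
      beta_reduce
      rw [dif_pos hk']
      exact hx ⟨k, hk'⟩
    · intro hx j
      have h2 := hx j (Finset.mem_coe.2 (Finset.mem_range.2 j.2))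
      beta_reduce at h2
      rw [dif_pos j.2] at h2
      exact h2
  rw [h, measureReal_def, Measure.infinitePi_pi _ (fun k _ => by
    split_ifs
    · exact measurableSet_singleton _
    · exact MeasurableSet.univ), ENNReal.toReal_prod, Finset.prod_range]
  refine Finset.prod_congr rfl fun j _ => ?_
  rw [dif_pos j.2]
  rfl

theorem prob_So (p : ℝ) (hp : p = μ.real {true}) (L : ℕ) (A : Fin L → Finset I) :
    (PP μ I).real {ω | So L ω = A} = ∏ j, wq (fun _ : I => p) (A j) := by
  have h : {ω : I → ℕ → Bool | So L ω = A} =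
      Set.pi Set.univ fun i : I => {x : ℕ → Bool | ∀ j : Fin L, x j = decide (i ∈ A j)} := by
    ext ω
    rw [Set.mem_univ_pi]
    exact So_eq_iff
  rw [h, measureReal_def, Measure.pi_pi, ENNReal.toReal_prod]
  have h2 : ∀ i : I, ((PI μ) {x : ℕ → Bool | ∀ j : Fin L, x j = decide (i ∈ A j)}).toReal =
      ∏ j, if i ∈ A j then p else 1 - p := by
    intro i
    have h3 := prob_cyl μ L fun j => decide (i ∈ A j)
    rw [measureReal_def] at h3
    rw [h3]
    refine Finset.prod_congr rfl fun j _ => ?_
    by_cases hi : i ∈ A j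
    · rw [if_pos hi, decide_eq_true hi, hp]
    · rw [if_neg hi, decide_eq_false hi, hp, real_false]
  rw [Finset.prod_congr rfl fun i _ => h2 i, Finset.prod_comm]
  refine Finset.prod_congr rfl fun j _ => ?_
  unfold wq
  rw [← Finset.prod_mul_prod_compl (A j)]
  congr 1
  · exact Finset.prod_congr rfl fun i hi => if_pos hi
  · exact Finset.prod_congr rfl fun i hi => if_neg (Finset.mem_compl.1 hi)

theorem iq_event (p : ℝ) (hp : p = μ.real {true}) (L : ℕ) (P : List (Finset I) → Prop)
    [DecidablePred P] : iq (fun _ : I => p) L (fun l => if P l then 1 else 0) =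
      (PP μ I).real {ω | P (List.ofFn (So L ω))} := by
  have h1 : {ω : I → ℕ → Bool | P (List.ofFn (So L ω))} =
      ⋃ A ∈ (univ.filter fun A : Fin L → Finset I => P (List.ofFn A)), {ω | So L ω = A} := by
    ext ω
    simp
  rw [h1, measureReal_biUnion_finset, iq_sum, Finset.sum_filter]
  · refine Finset.sum_congr rfl fun A _ => ?_
    rw [prob_So μ p hp]
    split_ifs <;> simp
  · intro A _ B _ hAB
    refine Set.disjoint_left.2 fun ω hA hB => hAB ?_
    have hA' : So L ω = A := hA
    have hB' : So L ω = B := hB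
    rw [← hA', hB']
  · intro A _
    have h : {ω : I → ℕ → Bool | So L ω = A} =
        Set.pi Set.univ fun i : I => {x : ℕ → Bool | ∀ j : Fin L, x j = decide (i ∈ A j)} := by
      ext ω
      rw [Set.mem_univ_pi]
      exact So_eq_iff
    rw [h]
    exact MeasurableSet.univ_pi fun i => meas_cyl L _

/-- **the numbers of the successes of different coins are independent** -/
theorem iq_cnt (p : ℝ) (hp : p = μ.real {true}) (L : ℕ) (Q : I → ℕ → Prop)
    [DecidablePred fun l : List (Finset I) => ∀ i, Q i (cntL i l)] :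
    iq (fun _ : I => p) L (fun l => if ∀ i, Q i (cntL i l) then 1 else 0) =
      ∏ i, (PI μ).real {x | Q i (cn L x)} := by
  rw [iq_event μ p hp L fun l => ∀ i, Q i (cntL i l)]
  have h : {ω : I → ℕ → Bool | ∀ i, Q i (cntL i (List.ofFn (So L ω)))} =
      Set.pi Set.univ fun i : I => {x : ℕ → Bool | Q i (cn L x)} := by
    ext ω
    rw [Set.mem_univ_pi]
    refine forall_congr' fun i => ?_
    rw [cntL_So]
    rfl
  rw [h, measureReal_def, Measure.pi_pi, ENNReal.toReal_prod]
  rfl

end

/-- a coin with a given probability -/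
theorem exists_bern {p : ℝ} (h0 : 0 ≤ p) (h1 : p ≤ 1) :
    ∃ μ : Measure Bool, IsProbabilityMeasure μ ∧ p = μ.real {true} := by
  refine ⟨ENNReal.ofReal p • Measure.dirac true + ENNReal.ofReal (1 - p) • Measure.dirac false, ⟨?_⟩, ?_⟩
  · rw [Measure.add_apply, Measure.smul_apply, Measure.smul_apply, measure_univ, measure_univ,
      smul_eq_mul, smul_eq_mul, mul_one, mul_one, ← ENNReal.ofReal_add h0 (by linarith)]
    rw [show p + (1 - p) = 1 by ring, ENNReal.ofReal_one]
  · rw [measureReal_def, Measure.add_apply, Measure.smul_apply, Measure.smul_apply]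
    simp [ENNReal.toReal_ofReal h0]

end Q198.CF
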