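import Pool.Agent.Q198.CF.A2
import Pool.Agent.Q198.CF.B2

/-! # Limit theorems for processes near to independent coins -/

set_option autoImplicit false

namespace Q198.CF

open MeasureTheory ProbabilityTheory Finset Filter Topology

theorem Phi_sub_le {x y : ℝ} (h : x ≤ y) : Phi y - Phi x ≤ y - x := by
  unfold Phi
  have h1 : Set.Iic y = Set.Iic x ∪ Set.Ioc x y := (Set.Iic_union_Ioc_eq_Iic h).symm
  have h2 : (gaussianReal 0 1).real (Set.Iic y) ≤
      (gaussianReal 0 1).real (Set.Iic x) + (gaussianReal 0 1).real (Set.Ioc x y) := by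
    rw [h1]
    exact measureReal_union_le _ _
  have h3 : (gaussianReal 0 1).real (Set.Ioc x y) ≤ y - x := by
    rw [measureReal_def]
    refine ENNReal.toReal_le_of_le_ofReal (by linarith) ?_
    rw [gaussianReal_apply 0 one_ne_zero]
    calc ∫⁻ z in Set.Ioc x y, gaussianPDF 0 1 z ≤ ∫⁻ _ in Set.Ioc x y, 1 := by
          refine lintegral_mono fun z => ?_
          unfold gaussianPDF gaussianPDFReal
          rw [← ENNReal.ofReal_one]
          refine ENNReal.ofReal_le_ofReal ?_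
          have h5 : (√(2 * Real.pi * ((1 : NNReal) : ℝ)))⁻¹ ≤ 1 := by
            refine inv_le_one_of_one_le₀ ?_
            rw [Real.one_le_sqrt]
            have := Real.pi_gt_three
            push_cast
            linarith
          have h6 : Real.exp (-(z - 0) ^ 2 / (2 * ((1 : NNReal) : ℝ))) ≤ 1 := by
            rw [Real.exp_le_one_iff]
            have : 0 ≤ (z - 0) ^ 2 := sq_nonneg _
            push_cast
            linarith
          exact mul_le_one₀ h5 (Real.exp_nonneg _) h6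
      _ = ENNReal.ofReal (y - x) := by
          rw [setLIntegral_one, Real.volume_Ioc]
  linarith

theorem Phi_mono : Monotone Phi := fun _ _ h =>
  measureReal_mono (Set.Iic_subset_Iic.2 h) (measure_ne_top _ _)

theorem Phi_cont : Continuous Phi := by
  have h : LipschitzWith 1 Phi := by
    refine LipschitzWith.of_le_add fun x y => ?_
    rcases le_total x y with h | h
    · have := Phi_mono h
      have h2 : 0 ≤ dist x y := dist_nonneg
      linarith
    · have := Phi_sub_le h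
      rw [Real.dist_eq, abs_of_nonneg (by linarith)]
      linarith
  exact h.continuous

theorem Phi_nonneg (x : ℝ) : 0 ≤ Phi x := measureReal_nonneg

theorem Phi_le_one (x : ℝ) : Phi x ≤ 1 := measureReal_le_one

theorem HasMean.mono {K N : ℕ} {F G : List ℕ → ℝ} {c c' : ℝ} (hF : HasMean K N F c)
    (hG : HasMean K N G c') (h : ∀ l : List ℕ, l.length = K → AdmL N l → F l ≤ G l) : c ≤ c' := by
  classical
  refine le_of_tendsto_of_tendsto' hF.1 hG.1 fun X => ?_
  refine div_le_div_of_nonneg_right ?_ (Nat.cast_nonneg _)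
  refine Finset.sum_le_sum fun p hp => ?_
  obtain ⟨h1, h2, h3⟩ := Finset.mem_filter.1 hp
  refine h _ (List.length_ofFn) ⟨List.nodup_ofFn.2 h2, fun q hq => ?_⟩
  obtain ⟨i, rfl⟩ := (List.mem_ofFn' p q).1 hq
  exact ⟨(Finset.mem_filter.1 (Fintype.mem_piFinset.1 h1 i)).2, h3 i⟩

section
variable {I : Type} [Fintype I] [DecidableEq I]

omit [Fintype I] in
theorem cnt_drop_le (g : List ℕ → Finset I) (k : ℕ) (l : List ℕ) (i : I) :
    cntL i (outs g k l) ≤ cntL i (outs g 0 l) ∧ cntL i (outs g 0 l) ≤ cntL i (outs g k l) + k := by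
  have h : outs g k l = (outs g 0 l).drop k := by
    unfold outs
    rw [List.drop_zero, List.map_drop]
  have h2 : cntL i (outs g 0 l) = cntL i ((outs g 0 l).take k) + cntL i (outs g k l) := by
    unfold cntL
    rw [h, ← List.countP_append, List.take_append_drop]
  have h3 : cntL i ((outs g 0 l).take k) ≤ k := by
    unfold cntL
    exact List.countP_le_length.trans (by rw [List.length_take]; exact Nat.min_le_left _ _)
  omega

/-- the process of the sets `g [p_1, …, p_j]` is near to independent coins -/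
def Near (g : List ℕ → Finset I) (N : ℕ) (κ C ρ : ℝ) : Prop :=
  ∀ (k L : ℕ) (F : List (Finset I) → ℝ), (∀ l, |F l| ≤ 1) → ∃ c : ℝ,
    HasMean (k + L) N (fun l => F (outs g k l)) c ∧ |c - iq (fun _ : I => κ) L F| ≤ C * ρ ^ k

theorem abs_ind_le (P : Prop) [Decidable P] : |if P then (1 : ℝ) else 0| ≤ 1 := by
  split_ifs <;> norm_num

open Classical in
/-- **large deviations** -/
theorem near_hoeff {g : List ℕ → Finset I} {N : ℕ} {κ C ρ : ℝ} (h : Near g N κ C ρ)
    (h0 : 0 < κ) (h1 : κ < 1) (k L : ℕ) (hL : 0 < L) {e : ℝ} (he : 0 ≤ e) : ∃ c : ℝ,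
      HasMean (k + L) N (fun l => if ∃ i, e * L ≤ |(cntL i (outs g k l) : ℝ) - L * κ| then 1 else 0) c ∧
      c ≤ 2 * Fintype.card I * Real.exp (-2 * e ^ 2 * L) + C * ρ ^ k := by
  obtain ⟨μ, hμ, hp⟩ := exists_bern h0.le h1.le
  obtain ⟨c, hc1, hc2⟩ := h k L
    (fun l => if ∃ i, e * L ≤ |(cntL i l : ℝ) - L * κ| then 1 else 0) fun l => abs_ind_le _
  refine ⟨c, hc1, ?_⟩
  have h2 : iq (fun _ : I => κ) L (fun l => if ∃ i, e * L ≤ |(cntL i l : ℝ) - L * κ| then 1 else 0) ≤
      2 * Fintype.card I * Real.exp (-2 * e ^ 2 * L) := by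
    rw [iq_event μ κ hp L fun l => ∃ i, e * L ≤ |(cntL i l : ℝ) - L * κ|]
    have h3 : {ω : I → ℕ → Bool | ∃ i, e * L ≤ |(cntL i (List.ofFn (So L ω)) : ℝ) - L * κ|} ⊆
        ⋃ i ∈ (univ : Finset I), (fun ω : I → ℕ → Bool => ω i) ⁻¹' {x | e * L ≤ |(cn L x : ℝ) - L * κ|} := by
      rintro ω ⟨i, hi⟩
      rw [cntL_So] at hi
      exact Set.mem_biUnion (Finset.mem_univ i) hi
    refine (measureReal_mono h3 (measure_ne_top _ _)).trans ?_
    refine (measureReal_biUnion_finset_le _ _).trans ?_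
    have h4 : ∀ i ∈ (univ : Finset I), (PP μ I).real ((fun ω : I → ℕ → Bool => ω i) ⁻¹'
        {x | e * L ≤ |(cn L x : ℝ) - L * κ|}) ≤ 2 * Real.exp (-2 * e ^ 2 * L) := by
      intro i _
      have h5 := (measurePreserving_eval (fun _ : I => PI μ) i).measureReal_preimage
        (s := {x | e * L ≤ |(cn L x : ℝ) - L * κ|}) (by
          refine MeasurableSet.nullMeasurableSet ?_
          refine measurableSet_le measurable_const ?_
          exact (((measurable_from_nat (f := fun n : ℕ => (n : ℝ))).comp (measurable_cn L)).sub_const _).abs)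
      rw [show (fun ω : I → ℕ → Bool => ω i) = Function.eval i from rfl, h5]
      exact hoeff_cn μ κ hp L hL he
    refine (Finset.sum_le_sum h4).trans (le_of_eq ?_)
    rw [Finset.sum_const, Finset.card_univ, nsmul_eq_mul]
    ring
  have := abs_le.1 hc2
  linarith [this.2]

theorem tendsto_shift (k : ℕ) : Tendsto (fun n : ℕ => √((n + k : ℕ) : ℝ) - √(n : ℝ)) atTop (𝓝 0) := by
  have h1 : Tendsto (fun n : ℕ => (k : ℝ) / √(n : ℝ)) atTop (𝓝 0) :=
    tendsto_const_nhds.div_atTop (Real.tendsto_sqrt_atTop.comp tendsto_natCast_atTop_atTop)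
  refine squeeze_zero' ?_ ?_ h1
  · filter_upwards with n
    have : √(n : ℝ) ≤ √((n + k : ℕ) : ℝ) := Real.sqrt_le_sqrt (by push_cast; linarith [Nat.cast_nonneg (α := ℝ) k])
    linarith
  · filter_upwards [eventually_gt_atTop 0] with n hn
    have hn' : (0 : ℝ) < √(n : ℝ) := Real.sqrt_pos.2 (by exact_mod_cast hn)
    rw [le_div_iff₀ hn']
    have h2 : √((n + k : ℕ) : ℝ) ^ 2 = n + k := by
      rw [Real.sq_sqrt (Nat.cast_nonneg _)]
      push_cast
      ring
    have h3 : √(n : ℝ) ^ 2 = n := Real.sq_sqrt (Nat.cast_nonneg _)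
    have h4 : √(n : ℝ) ≤ √((n + k : ℕ) : ℝ) := Real.sqrt_le_sqrt (by push_cast; linarith [Nat.cast_nonneg (α := ℝ) k])
    nlinarith

open Classical in
/-- **the central limit theorem, jointly** -/
theorem near_clt {g : List ℕ → Finset I} {N : ℕ} {κ C ρ : ℝ} (h : Near g N κ C ρ)
    (h0 : 0 < κ) (h1 : κ < 1) (hρ0 : 0 ≤ ρ) (hρ1 : ρ < 1) (x : I → ℝ) : ∃ d : ℕ → ℝ,
      (∀ K, HasMean K N (fun l => if ∀ i, (cntL i (outs g 0 l) : ℝ) ≤
        K * κ + x i * (√(κ * (1 - κ)) * √(K : ℝ)) then 1 else 0) (d K)) ∧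
      Tendsto d atTop (𝓝 (∏ i, Phi (x i))) := by
  obtain ⟨μ, hμ, hp⟩ := exists_bern h0.le h1.le
  set σ : ℝ := √(κ * (1 - κ)) with hσ
  have hσ0 : 0 < σ := Real.sqrt_pos.2 (mul_pos h0 (by linarith))
  have hd : ∀ K : ℕ, ∃ c, HasMean K N (fun l => if ∀ i, (cntL i (outs g 0 l) : ℝ) ≤
      K * κ + x i * (σ * √(K : ℝ)) then 1 else 0) c := by
    intro K
    obtain ⟨c, hc, -⟩ := h 0 K (fun l => if ∀ i, (cntL i l : ℝ) ≤
      K * κ + x i * (σ * √(K : ℝ)) then 1 else 0) fun l => abs_ind_le _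
    rw [zero_add] at hc
    exact ⟨c, hc⟩
  choose d hd using hd
  refine ⟨d, hd, ?_⟩
  -- upper and lower bounds after `k` steps
  have hup : ∀ (k : ℕ) (t : ℝ), 0 < t → ∀ᶠ L : ℕ in atTop,
      d (k + L) ≤ (∏ i, (PI μ).real {y | (cn L y : ℝ) ≤ L * κ + (x i + t) * (σ * √(L : ℝ))}) + C * ρ ^ k := by
    intro k t ht
    have h2 : ∀ᶠ L : ℕ in atTop, ∀ i, ((k + L : ℕ) : ℝ) * κ + x i * (σ * √((k + L : ℕ) : ℝ)) ≤
        L * κ + (x i + t) * (σ * √(L : ℝ)) := by
      rw [eventually_all]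
      intro i
      have h3 : Tendsto (fun L : ℕ => k * κ + x i * σ * (√((L + k : ℕ) : ℝ) - √(L : ℝ))) atTop
          (𝓝 (k * κ + x i * σ * 0)) := ((tendsto_shift k).const_mul _).const_add _
      have h4 : Tendsto (fun L : ℕ => t * σ * √(L : ℝ)) atTop atTop :=
        (Real.tendsto_sqrt_atTop.comp tendsto_natCast_atTop_atTop).const_mul_atTop (mul_pos ht hσ0)
      have h5 := h3.eventually_lt_const (u := k * κ + x i * σ * 0 + 1) (by linarith)
      filter_upwards [h5, h4.eventually_ge_atTop (k * κ + x i * σ * 0 + 1)] with L h6 h7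
      rw [add_comm k L]
      push_cast at h6 ⊢
      nlinarith
    filter_upwards [h2] with L hL
    obtain ⟨c, hc1, hc2⟩ := h k L (fun l => if ∀ i, (cntL i l : ℝ) ≤
      L * κ + (x i + t) * (σ * √(L : ℝ)) then 1 else 0) fun l => abs_ind_le _
    have h3 := (hd (k + L)).mono hc1 fun l hl _ => by
      by_cases h4 : ∀ i, (cntL i (outs g 0 l) : ℝ) ≤ ((k + L : ℕ) : ℝ) * κ + x i * (σ * √((k + L : ℕ) : ℝ))
      · rw [if_pos h4, if_pos]
        intro i
        have h5 : (cntL i (outs g k l) : ℝ) ≤ cntL i (outs g 0 l) := by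
          exact_mod_cast (cnt_drop_le g k l i).1
        exact h5.trans ((h4 i).trans (hL i))
      · rw [if_neg h4]
        split_ifs <;> norm_num
    have h4 := iq_cnt μ κ hp L fun i n => (n : ℝ) ≤ L * κ + (x i + t) * (σ * √(L : ℝ))
    have h5 := (abs_le.1 hc2).2
    have h6 : iq (fun _ : I => κ) L (fun l => if ∀ i, (cntL i l : ℝ) ≤
      L * κ + (x i + t) * (σ * √(L : ℝ)) then 1 else 0) = _ := h4
    linarith
  have hlo : ∀ (k : ℕ) (t : ℝ), 0 < t → ∀ᶠ L : ℕ in atTop,
      (∏ i, (PI μ).real {y | (cn L y : ℝ) ≤ L * κ + (x i - t) * (σ * √(L : ℝ))}) - C * ρ ^ k ≤ d (k + L) := by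
    intro k t ht
    have h2 : ∀ᶠ L : ℕ in atTop, ∀ i, L * κ + (x i - t) * (σ * √(L : ℝ)) + k ≤
        ((k + L : ℕ) : ℝ) * κ + x i * (σ * √((k + L : ℕ) : ℝ)) := by
      rw [eventually_all]
      intro i
      have h3 : Tendsto (fun L : ℕ => k - k * κ - x i * σ * (√((L + k : ℕ) : ℝ) - √(L : ℝ))) atTop
          (𝓝 (k - k * κ - x i * σ * 0)) := ((tendsto_shift k).const_mul _).const_sub _
      have h4 : Tendsto (fun L : ℕ => t * σ * √(L : ℝ)) atTop atTop :=
        (Real.tendsto_sqrt_atTop.comp tendsto_natCast_atTop_atTop).const_mul_atTop (mul_pos ht hσ0)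
      have h5 := h3.eventually_lt_const (u := k - k * κ - x i * σ * 0 + 1) (by linarith)
      filter_upwards [h5, h4.eventually_ge_atTop (k - k * κ - x i * σ * 0 + 1)] with L h6 h7
      rw [add_comm k L]
      push_cast at h6 ⊢
      nlinarith
    filter_upwards [h2] with L hL
    obtain ⟨c, hc1, hc2⟩ := h k L (fun l => if ∀ i, (cntL i l : ℝ) ≤
      L * κ + (x i - t) * (σ * √(L : ℝ)) then 1 else 0) fun l => abs_ind_le _
    have h3 := hc1.mono (hd (k + L)) fun l hl _ => by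
      by_cases h4 : ∀ i, (cntL i (outs g k l) : ℝ) ≤ L * κ + (x i - t) * (σ * √(L : ℝ))
      · rw [if_pos h4, if_pos]
        intro i
        have h5 : (cntL i (outs g 0 l) : ℝ) ≤ cntL i (outs g k l) + k := by
          exact_mod_cast (cnt_drop_le g k l i).2
        have h6 := h4 i
        have h7 := hL i
        linarith
      · rw [if_neg h4]
        split_ifs <;> norm_num
    have h4 := iq_cnt μ κ hp L fun i n => (n : ℝ) ≤ L * κ + (x i - t) * (σ * √(L : ℝ))
    have h5 := (abs_le.1 hc2).1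
    have h6 : iq (fun _ : I => κ) L (fun l => if ∀ i, (cntL i l : ℝ) ≤
      L * κ + (x i - t) * (σ * √(L : ℝ)) then 1 else 0) = _ := h4
    linarith
  have hclt : ∀ y : I → ℝ, Tendsto (fun L : ℕ => ∏ i, (PI μ).real
      {z | (cn L z : ℝ) ≤ L * κ + y i * (σ * √(L : ℝ))}) atTop (𝓝 (∏ i, Phi (y i))) := fun y =>
    tendsto_finsetProd _ fun i _ => clt_cn μ κ hp h0 h1 (y i)
  have hcont : Tendsto (fun t : ℝ => ∏ i, Phi (x i + t)) (𝓝 0) (𝓝 (∏ i, Phi (x i))) := by
    have h2 : Continuous fun t : ℝ => ∏ i, Phi (x i + t) :=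
      continuous_finsetProd _ fun i _ => Phi_cont.comp (continuous_const.add continuous_id)
    have h3 := h2.tendsto 0
    simp only [add_zero] at h3
    exact h3
  rw [Metric.tendsto_atTop]
  intro ε hε
  -- choose `t`
  obtain ⟨δ, hδ, hδ2⟩ := Metric.tendsto_nhds_nhds.1 hcont (ε / 3) (by positivity)
  have ht1 : |∏ i, Phi (x i + δ / 2) - ∏ i, Phi (x i)| < ε / 3 := by
    have := @hδ2 (δ / 2) (by rw [Real.dist_eq, sub_zero, abs_of_pos (by positivity)]; linarith)
    rwa [Real.dist_eq] at this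
  have ht2 : |∏ i, Phi (x i - δ / 2) - ∏ i, Phi (x i)| < ε / 3 := by
    have := @hδ2 (-(δ / 2)) (by rw [Real.dist_eq, sub_zero, abs_neg, abs_of_pos (by positivity)]; linarith)
    rw [Real.dist_eq] at this
    exact this
  -- choose `k`
  have hk : ∃ k : ℕ, C * ρ ^ k < ε / 3 := by
    have h2 : Tendsto (fun k : ℕ => C * ρ ^ k) atTop (𝓝 (C * 0)) :=
      (tendsto_pow_atTop_nhds_zero_of_lt_one hρ0 hρ1).const_mul C
    rw [mul_zero] at h2
    exact (h2.eventually_lt_const (by positivity)).exists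
  obtain ⟨k, hk⟩ := hk
  have e1 := (Metric.tendsto_atTop.1 (hclt fun i => x i + δ / 2)) (ε / 3) (by positivity)
  have e2 := (Metric.tendsto_atTop.1 (hclt fun i => x i - δ / 2)) (ε / 3) (by positivity)
  obtain ⟨L1, hL1⟩ := e1
  obtain ⟨L2, hL2⟩ := e2
  obtain ⟨L3, hL3⟩ := eventually_atTop.1 (hup k (δ / 2) (by positivity))
  obtain ⟨L4, hL4⟩ := eventually_atTop.1 (hlo k (δ / 2) (by positivity))
  refine ⟨k + (L1 + L2 + L3 + L4), fun K hK => ?_⟩
  obtain ⟨L, rfl⟩ : ∃ L, K = k + L := ⟨K - k, by omega⟩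
  have f1 := hL1 L (by omega)
  have f2 := hL2 L (by omega)
  have f3 := hL3 L (by omega)
  have f4 := hL4 L (by omega)
  rw [Real.dist_eq, abs_lt] at f1 f2
  rw [Real.dist_eq, abs_lt]
  rw [abs_lt] at ht1 ht2
  constructor <;> linarith [f1.1, f1.2, f2.1, f2.2, ht1.1, ht1.2, ht2.1, ht2.2]

end

end Q198.CF
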