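import Pool.Agent.Q198.CF.B3

/-! # The law of large numbers, uniformly in the horizon -/

set_option autoImplicit false

namespace Q198.CF

open MeasureTheory ProbabilityTheory Finset Filter Topology

section
variable {I : Type} [Fintype I] [DecidableEq I]

theorem cntL_take_So {L n : ℕ} (h : n ≤ L) (ω : I → ℕ → Bool) (i : I) :
    cntL i ((List.ofFn (So L ω)).take n) = cn n (ω i) := by
  rw [← Fin.ofFn_take_eq_take_ofFn h]
  exact cntL_So n ω i

omit [Fintype I] in
/-- the number of good steps before `K`, from the number after the step `k` -/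
theorem cnt_take (g : List ℕ → Finset I) {k K : ℕ} (hk : k ≤ K) (l : List ℕ) (i : I) :
    cntL i ((outs g k l).take (K - k)) ≤ cntL i ((outs g 0 l).take K) ∧
      cntL i ((outs g 0 l).take K) ≤ cntL i ((outs g k l).take (K - k)) + k := by
  have h : outs g k l = (outs g 0 l).drop k := by
    unfold outs
    rw [List.drop_zero, List.map_drop]
  have h1 : ((outs g 0 l).take K) = (outs g 0 l).take k ++ (outs g k l).take (K - k) := by
    rw [h]
    obtain ⟨n, rfl⟩ : ∃ n, K = k + n := ⟨K - k, by omega⟩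
    rw [Nat.add_sub_cancel_left, List.take_add]
  have h3 : cntL i ((outs g 0 l).take k) ≤ k := by
    unfold cntL
    exact List.countP_le_length.trans (by rw [List.length_take]; exact Nat.min_le_left _ _)
  have h2 : cntL i ((outs g 0 l).take K) = cntL i ((outs g 0 l).take k) +
      cntL i ((outs g k l).take (K - k)) := by
    rw [h1]
    unfold cntL
    rw [List.countP_append]
  omega

theorem near_slln (I : Type) [Fintype I] [DecidableEq I] {κ C ρ : ℝ}
    (h0 : 0 < κ) (h1 : κ < 1) (hρ0 : 0 ≤ ρ) (hρ1 : ρ < 1) {e η : ℝ} (he : 0 < e) (hη : 0 < η) :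
    ∃ K₀ : ℕ, ∀ (g : List ℕ → Finset I) (N : ℕ), Near g N κ C ρ → ∀ K₁ : ℕ, K₀ ≤ K₁ →
      ∀ (P : List ℕ → Prop) [DecidablePred P], (∀ l, P l ↔ ∀ i, ∀ K : ℕ, K₀ ≤ K → K ≤ K₁ → |(cntL i ((outs g 0 l).take K) : ℝ) - K * κ| < e * K) →
      ∃ c : ℝ, HasMean K₁ N (fun l => if P l then 1 else 0) c ∧ 1 - η ≤ c := by
  classical
  obtain ⟨μ, hμ, hp⟩ := exists_bern h0.le h1.le
  -- choose `k`
  have hk : ∃ k : ℕ, C * ρ ^ k < η / 2 := by
    have h2 : Tendsto (fun k : ℕ => C * ρ ^ k) atTop (𝓝 (C * 0)) :=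
      (tendsto_pow_atTop_nhds_zero_of_lt_one hρ0 hρ1).const_mul C
    rw [mul_zero] at h2
    exact (h2.eventually_lt_const (by positivity)).exists
  obtain ⟨k, hk⟩ := hk
  set r : ℝ := Real.exp (-2 * (e / 2) ^ 2) with hr
  have hr0 : 0 < r := Real.exp_pos _
  have hr1 : r < 1 := by
    rw [hr, Real.exp_lt_one_iff]
    have : 0 < (e / 2) ^ 2 := by positivity
    linarith
  -- choose `K₀`
  have hn : ∃ n₀ : ℕ, 0 < n₀ ∧ (Fintype.card I : ℝ) * (2 * (r ^ n₀ * (1 - r)⁻¹)) < η / 2 ∧
      (k : ℝ) * 2 ≤ e / 2 * n₀ := by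
    have h2 : Tendsto (fun n : ℕ => (Fintype.card I : ℝ) * (2 * (r ^ n * (1 - r)⁻¹))) atTop
        (𝓝 ((Fintype.card I : ℝ) * (2 * (0 * (1 - r)⁻¹)))) :=
      (((tendsto_pow_atTop_nhds_zero_of_lt_one hr0.le hr1).mul_const _).const_mul _).const_mul _
    have h3 : (Fintype.card I : ℝ) * (2 * (0 * (1 - r)⁻¹)) < η / 2 := by
      rw [zero_mul, mul_zero, mul_zero]
      positivity
    have h4 : Tendsto (fun n : ℕ => e / 2 * (n : ℝ)) atTop atTop :=
      tendsto_natCast_atTop_atTop.const_mul_atTop (by positivity)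
    obtain ⟨n, hn1, hn2, hn3⟩ := ((h2.eventually_lt_const h3).and
      ((h4.eventually_ge_atTop ((k : ℝ) * 2)).and (eventually_gt_atTop 0))).exists
    exact ⟨n, hn3, hn1, hn2⟩
  obtain ⟨n₀, hn0, hn1, hn2⟩ := hn
  refine ⟨k + n₀, fun g N h K₁ hK P _ hP => ?_⟩
  obtain ⟨L, rfl⟩ : ∃ L, K₁ = k + L := ⟨K₁ - k, by omega⟩
  have hnL : n₀ ≤ L := by omega
  -- the event for the sets after the step `k`
  set G : List (Finset I) → Prop := fun s => ∀ i, ∀ n : ℕ, n₀ ≤ n → n ≤ L →
    |(cntL i (s.take n) : ℝ) - n * κ| < e / 2 * n with hG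
  obtain ⟨c, hc1, hc2⟩ := h k L (fun s => if G s then 1 else 0) fun l => abs_ind_le _
  obtain ⟨c', hc', -⟩ : ∃ c' : ℝ, HasMean (k + L) N (fun l => if P l then 1 else 0) c' ∧ True := by
    obtain ⟨c', hc', -⟩ := h 0 (k + L) (fun s => if ∀ i, ∀ K : ℕ, k + n₀ ≤ K → K ≤ k + L →
      |(cntL i (s.take K) : ℝ) - K * κ| < e * K then 1 else 0) fun l => abs_ind_le _
    rw [zero_add] at hc'
    refine ⟨c', hc'.congr fun l _ _ => ?_, trivial⟩
    by_cases hl : P l
    · rw [if_pos hl]
      exact if_pos ((hP l).1 hl)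
    · rw [if_neg hl]
      exact if_neg fun h' => hl ((hP l).2 h')
  refine ⟨c', hc', ?_⟩
  have h2 : c ≤ c' := by
    refine hc1.mono hc' fun l _ _ => ?_
    by_cases hg : G (outs g k l)
    · rw [if_pos hg, if_pos]
      refine (hP l).2 fun i K hK1 hK2 => ?_
      have h3 := hg i (K - k) (by omega) (by omega)
      obtain ⟨h4, h5⟩ := cnt_take g (by omega : k ≤ K) l i
      have h6 : ((K - k : ℕ) : ℝ) = K - k := by rw [Nat.cast_sub (by omega)]
      rw [h6, abs_lt] at h3
      have h7 : (cntL i ((outs g k l).take (K - k)) : ℝ) ≤ cntL i ((outs g 0 l).take K) := by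
        exact_mod_cast h4
      have h8 : (cntL i ((outs g 0 l).take K) : ℝ) ≤ cntL i ((outs g k l).take (K - k)) + k := by
        exact_mod_cast h5
      have h9 : (n₀ : ℝ) ≤ K := by exact_mod_cast (by omega : n₀ ≤ K)
      have hk0 : (0 : ℝ) ≤ k := Nat.cast_nonneg k
      rw [abs_lt]
      constructor <;> nlinarith
    · rw [if_neg hg]
      split_ifs <;> norm_num
  -- the bad event for the coins
  have h3 : 1 - (Fintype.card I : ℝ) * (2 * (r ^ n₀ * (1 - r)⁻¹)) ≤
      iq (fun _ : I => κ) L (fun s => if G s then 1 else 0) := by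
    rw [iq_event μ κ hp L G]
    have hmeas : ∀ n : ℕ, MeasurableSet {x : ℕ → Bool | e / 2 * n ≤ |(cn n x : ℝ) - n * κ|} := fun n =>
      measurableSet_le measurable_const
        (((measurable_from_nat (f := fun n : ℕ => (n : ℝ))).comp (measurable_cn n)).sub_const _).abs
    have h4 : (Set.univ : Set (I → ℕ → Bool)) ⊆ {ω | G (List.ofFn (So L ω))} ∪
        ⋃ i ∈ (univ : Finset I), ⋃ n ∈ Finset.Icc n₀ L,
          (fun ω : I → ℕ → Bool => ω i) ⁻¹' {x | e / 2 * n ≤ |(cn n x : ℝ) - n * κ|} := by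
      intro ω _
      by_cases hω : G (List.ofFn (So L ω))
      · exact Or.inl hω
      · right
        rw [hG] at hω
        push Not at hω
        obtain ⟨i, n, hn3, hn4, hn5⟩ := hω
        rw [cntL_take_So hn4] at hn5
        exact Set.mem_biUnion (Finset.mem_univ i) (Set.mem_biUnion (Finset.mem_Icc.2 ⟨hn3, hn4⟩) hn5)
    have h5 := (measureReal_mono h4 (measure_ne_top (PP μ I) _)).trans (measureReal_union_le _ _)
    rw [probReal_univ] at h5
    have h6 : (PP μ I).real (⋃ i ∈ (univ : Finset I), ⋃ n ∈ Finset.Icc n₀ L,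
          (fun ω : I → ℕ → Bool => ω i) ⁻¹' {x | e / 2 * n ≤ |(cn n x : ℝ) - n * κ|}) ≤
        (Fintype.card I : ℝ) * (2 * (r ^ n₀ * (1 - r)⁻¹)) := by
      refine (measureReal_biUnion_finset_le _ _).trans ?_
      have h7 : ∀ i ∈ (univ : Finset I), (PP μ I).real (⋃ n ∈ Finset.Icc n₀ L,
          (fun ω : I → ℕ → Bool => ω i) ⁻¹' {x | e / 2 * n ≤ |(cn n x : ℝ) - n * κ|}) ≤
          2 * (r ^ n₀ * (1 - r)⁻¹) := by
        intro i _
        refine (measureReal_biUnion_finset_le _ _).trans ?_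
        have h8 : ∀ n ∈ Finset.Icc n₀ L, (PP μ I).real
            ((fun ω : I → ℕ → Bool => ω i) ⁻¹' {x | e / 2 * n ≤ |(cn n x : ℝ) - n * κ|}) ≤ 2 * r ^ n := by
          intro n hn
          have h9 := (measurePreserving_eval (fun _ : I => PI μ) i).measureReal_preimage
            (hmeas n).nullMeasurableSet
          rw [show (fun ω : I → ℕ → Bool => ω i) = Function.eval i from rfl, h9]
          refine (hoeff_cn μ κ hp n (lt_of_lt_of_le hn0 (Finset.mem_Icc.1 hn).1) (by positivity)).trans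
            (le_of_eq ?_)
          rw [hr, ← Real.exp_nat_mul]
          congr 2
          ring
        refine (Finset.sum_le_sum h8).trans ?_
        rw [← Finset.mul_sum]
        refine mul_le_mul_of_nonneg_left ?_ (by norm_num)
        have h10 : ∑ n ∈ Finset.Icc n₀ L, r ^ n ≤ ∑ j ∈ range (L + 1 - n₀), r ^ (n₀ + j) := by
          rw [show Finset.Icc n₀ L = Finset.Ico n₀ (L + 1) from by
            ext a
            simp only [Finset.mem_Icc, Finset.mem_Ico]
            omega, Finset.sum_Ico_eq_sum_range]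
        refine h10.trans ?_
        have h11 : ∑ j ∈ range (L + 1 - n₀), r ^ (n₀ + j) = r ^ n₀ * ∑ j ∈ range (L + 1 - n₀), r ^ j := by
          rw [Finset.mul_sum]
          exact Finset.sum_congr rfl fun j _ => pow_add _ _ _
        rw [h11]
        refine mul_le_mul_of_nonneg_left ?_ (by positivity)
        rw [← tsum_geometric_of_lt_one hr0.le hr1]
        exact (summable_geometric_of_lt_one hr0.le hr1).sum_le_tsum _ fun j _ => by positivity
      refine (Finset.sum_le_sum h7).trans (le_of_eq ?_)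
      rw [Finset.sum_const, Finset.card_univ, nsmul_eq_mul]
    linarith
  have h4 := (abs_le.1 hc2).1
  linarith

omit [Fintype I] in
theorem cnt_take_outs (g : List ℕ → Finset I) {K : ℕ} {l : List ℕ} (hK : K ≤ l.length) (i : I) :
    cntL i ((outs g 0 l).take K) = ((range K).filter fun j => i ∈ g (l.take (j + 1))).card := by
  unfold outs cntL
  rw [List.drop_zero, ← List.map_take, List.take_range, Nat.min_eq_left hK, List.countP_map]
  have h : ∀ K : ℕ, (List.range K).countP ((fun A : Finset I => decide (i ∈ A)) ∘ fun j => g (l.take (j + 1))) =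
      ((range K).filter fun j => i ∈ g (l.take (j + 1))).card := by
    intro K
    induction K with
    | zero => rfl
    | succ K ih =>
      rw [List.range_succ, List.countP_append, ih, Finset.range_add_one, Finset.filter_insert]
      by_cases hi : i ∈ g (l.take (K + 1))
      · rw [if_pos hi, Finset.card_insert_of_notMem (by simp)]
        simp [hi]
      · rw [if_neg hi]
        simp [hi]
  exact h K

omit [Fintype I] in
theorem cnt_outs_sub (g : List ℕ → Finset I) {k : ℕ} {l : List ℕ} (i : I) :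
    cntL i (outs g 0 l) = cntL i ((outs g 0 l).take k) + cntL i (outs g k l) := by
  have h : outs g k l = (outs g 0 l).drop k := by
    unfold outs
    rw [List.drop_zero, List.map_drop]
  unfold cntL
  rw [h, ← List.countP_append, List.take_append_drop]

end

end Q198.CF
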